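import Mathlib
import Pool.Agent.Helper303.LpMain

open MeasureTheory Set
open Pool.Agent.Helper303.Mb Pool.Agent.Helper303.Lp

namespace Pool.Agent.Results.MP_c338f1_an.LpFails

/-- There is a bounded convex domain `Ω ⊂ ℂ⁵` with `C^∞` boundary such that for every real
`p ≥ 200` the operator `∂̄` is not solvable with `L^p` estimates on `Ω` in bidegree `(0,1)`. -/
theorem result : ∃ Ω : Set (Fin 5 → ℂ),
    IsOpen Ω ∧ Ω.Nonempty ∧ Convex ℝ Ω ∧ Bornology.IsBounded Ω ∧ SmoothBoundary Ω ∧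
      ∀ p : ℝ, 200 ≤ p → ¬ LpEstimates01 Ω p :=
  ⟨Om, isOpen_Om, ⟨0, zero_mem_Om⟩, convex_Om, bdd_Om, smooth_Om, fun _ hp => main hp⟩

end Pool.Agent.Results.MP_c338f1_an.LpFails
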